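import Pool.Agent.Run7.h186.ML12

/-!
# Tensor products of an arbitrary Chow motive with the CM motives of `ℚ(i)`

Let `M` be any Chow motive over `ℚ` and `H = H^w(M)`, of dimension `N`.  Nothing is known about the
`L`-function `L(H, s)` to the left of the line `Re s = w/2 + 1` at the edge of the half plane of
absolute convergence, and even on this line its zeros and poles are not known.  Let `ψ` be an
algebraic Hecke character of `ℚ(i)`, of any infinity type and any conductor; for example the motives
`h¹` of the elliptic curves `y² = x³ - Dx` are of the form `Ind ψ`.  We prove that among all the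
`L(H ⊗ Ind ψ, s)` at most `N²` have a pole on the edge line and at most `N²` have a zero there.  (Poles
are expected only for the at most `N/2` characters for which `Ind ψ` is dual to a constituent of `H`,
and zeros never.)  The bound does not depend on anything else, in particular not on the conductor of
`M`, and holds for all heights on the line at once.  For the size of the `L`-functions at the edge no
continuation is needed.  Moreover there is ONE infinite set of characters which works for all motives
and all multiple tensor products.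

The definitions are in `Pool.Agent.Y149.TL.Defs` (motives, Euler factors, sizes, orders) and
`Pool.Agent.Run7.h186.CMDefs` (Hecke characters).
-/

set_option autoImplicit false

namespace Run7.h186.Kept.CMTwists

open Filter Topology Polynomial
open Pool.Agent.Y149.CM (LFun)
open Pool.Agent.Y149.TL (Motive edge size HasOrder)
open Run7.h186.CM

/-- **Tensor products with CM motives.**  `M` is the cohomology of a motive over `ℚ`, of rank `N`
(only the eigenvalues of Frobenius at almost all primes matter).  `ψ_e`, `e ∈ ι`, are algebraic Hecke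
characters of `ℚ(i)` such that the `Ind ψ_e` are irreducible and pairwise not isomorphic, for example
all of them.  `l` is a list of members of `ι`, for example the empty list, and
`M_e = M ⊗ Ind ψ_e ⊗ Ind ψ_{l_1} ⊗ ⋯ ⊗ Ind ψ_{l_k}`, of weight `w_e`.  Put `K = N² 4^k`.
1. For every finite set `S` of pairs `x = (e, τ)`, `τ ∈ ℝ`, and every `η > 0`, for all small `ε > 0`
the value `L(M_e, w_e/2 + 1 + iτ + ε)` is not `0` for `x ∈ S`, and for the numbers
`s_x = log |L(M_e, w_e/2 + 1 + iτ + ε)| / log(1/ε)` the sum over `x ∈ S` of the squares of the positive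
`s_x` is at most `K + η`, and so is the sum of the squares of the negative `s_x`.
2. For every finite set `S` of pairs `x = (e, τ)` such that the order `r_x` of `L(M_e, s)` at
`w_e/2 + 1 + iτ` exists, the sum of the squares of the positive `r_x` is at most `K`, and so is the sum
of the squares of the negative `r_x`.
3. There are sets `F` and `G` of at most `K` characters such that `L(M_e, s)` has no pole on the edge
line if `e` is not in `F`, and no zero on the edge line if `e` is not in `G`, as far as it continues to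
a neighbourhood of a point of the line.
4. If `ι` is infinite, then for every sequence `M_0, M_1, …` of motives there is an infinite subset `𝒥`
of `ι` with finite subsets `F_0, F_1, …` such that for every `j` and every list `l` of different members
of `𝒥`, not all of them in `F_j`, all orders of `L(M_j ⊗ Ind ψ_{l_1} ⊗ ⋯ ⊗ Ind ψ_{l_k}, s)` on the
edge line are `0`. -/
theorem result (ι : Type) (ψ : ι → HeckeChar) (hI : ∀ e, Irr (ψ e))
    (hψ : ∀ e e', e ≠ e' → Differ (ψ e) (ψ e')) :
    (∀ (M : Motive) (l : List ι),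
      (∀ (S : Finset (ι × ℝ)) (B : ι × ℝ → Nat.Primes → ℂ[X]),
        (∀ x ∈ S, IsTwist M ψ (x.1 :: l) (B x)) → ∀ η : ℝ, 0 < η → ∀ᶠ ε : ℝ in 𝓝[>] 0,
        (∀ x ∈ S, LFun (B x) (edge (wt M ψ (x.1 :: l)) x.2 + ε) ≠ 0) ∧
        ∑ x ∈ S, max (size (wt M ψ (x.1 :: l)) (B x) x.2 ε) 0 ^ 2 ≤
          (M.rank : ℝ) ^ 2 * 4 ^ l.length + η ∧
        ∑ x ∈ S, max (-size (wt M ψ (x.1 :: l)) (B x) x.2 ε) 0 ^ 2 ≤
          (M.rank : ℝ) ^ 2 * 4 ^ l.length + η) ∧
      (∀ (S : Finset (ι × ℝ)) (B : ι × ℝ → Nat.Primes → ℂ[X]) (r : ι × ℝ → ℤ),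
        (∀ x ∈ S, IsTwist M ψ (x.1 :: l) (B x) ∧
          HasOrder (wt M ψ (x.1 :: l)) (B x) x.2 (r x)) →
        ∑ x ∈ S, max (r x) 0 ^ 2 ≤ (M.rank : ℤ) ^ 2 * 4 ^ l.length ∧
        ∑ x ∈ S, max (-r x) 0 ^ 2 ≤ (M.rank : ℤ) ^ 2 * 4 ^ l.length) ∧
      (∃ F G : Finset ι, F.card ≤ M.rank ^ 2 * 4 ^ l.length ∧
        G.card ≤ M.rank ^ 2 * 4 ^ l.length ∧
        ∀ (e : ι) (B : Nat.Primes → ℂ[X]), IsTwist M ψ (e :: l) B → ∀ (τ : ℝ) (r : ℤ),
          HasOrder (wt M ψ (e :: l)) B τ r → (e ∉ F → 0 ≤ r) ∧ (e ∉ G → r ≤ 0))) ∧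
    (Infinite ι → ∀ M : ℕ → Motive, ∃ 𝒥 : Set ι, 𝒥.Infinite ∧
      ∀ j, ∃ F : Finset ι, (∀ x ∈ F, x ∈ 𝒥) ∧
        ∀ l : List ι, l.Nodup → (∀ e ∈ l, e ∈ 𝒥) → (∃ e ∈ l, e ∉ F) →
        ∀ B : Nat.Primes → ℂ[X], IsTwist (M j) ψ l B →
        ∀ (τ : ℝ) (r : ℤ), HasOrder (wt (M j) ψ l) B τ r → r = 0) := by
  refine ⟨fun M l => ⟨fun S B hB η hη => ?_, fun S B r h => ?_, ?_⟩, fun hι M => ?_⟩
  · have h1 := mean hI hψ M l S hB hη
    unfold bnd at h1
    push_cast at h1
    exact h1
  · have h1 := order hI hψ M l S (fun x hx => (h x hx).1) (fun x hx => (h x hx).2)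
    unfold bnd at h1
    push_cast at h1
    exact h1
  · exact exceptional hI hψ M l
  · exact universal hI hψ M

end Run7.h186.Kept.CMTwists
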