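import Pool.Agent.Run7.h186.NW3

/-!
# Tensor products of an arbitrary Chow motive with all newforms

Let `M` be any Chow motive over `ℚ` and `H = H^w(M)`, of dimension `N`.  Nothing is known about the
`L`-function `L(H, s)` to the left of the line `Re s = w/2 + 1` at the edge of the half plane of
absolute convergence, and even on this line its zeros and poles are not known.  Let `f` be a newform,
of any weight `k ≥ 1`, any level and any character, for example one of the forms which belong to the
elliptic curves over `ℚ`, to the odd two-dimensional Artin representations, or to any other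
two-dimensional motive which is modular.  We prove that among all the `L(H ⊗ f, s)`, `f` running
through ALL newforms, at most `N²` have a pole on the edge line and at most `N²` have a zero there.
(Poles are expected only for the at most `N/2` forms which are dual to a constituent of `H`, and zeros
never.)  The bound does not depend on anything else, in particular not on the conductor of `M`, and
holds for all heights on the line at once.  It is the same for all the `L(H ⊗ g ⊗ f, s)`, `g` any fixed
newform.  More precisely, the bound is the order `K ≤ N²` of the pole of `L(H ⊗ H^∨, s)`, or of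
`L((H ⊗ g) ⊗ (H ⊗ g)^∨, s)`, at its edge if it exists; it is `1` in the case that `H` is absolutely
irreducible and the conjecture of Tate holds.  For the size of the `L`-functions at the edge no
continuation is needed.  Moreover there is ONE infinite set of forms which works for all motives and
all multiple tensor products.

The proof contains the following theorem of Rankin-Selberg theory, which is proved from scratch: for two
different newforms (of different weights, characters or levels) the Rankin-Selberg series is bounded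
near the edge line, as are the series of one newform away from the real point.  The theorem of Deligne
(the Ramanujan-Petersson conjecture) is not used for the products with one or two newforms.

The definitions are in `Pool.Agent.Y149.TL.Defs` (motives, Euler factors, sizes, orders),
`Pool.Agent.Run7.h186.NUDefs` (eigenforms) and `Pool.Agent.Run7.h186.NWDefs` (tensor products).
-/

set_option autoImplicit false

namespace Run7.h186.Kept.NewformTensors

open Filter Topology Polynomial
open Pool.Agent.Y149.CM (LFun)
open Pool.Agent.Y149.TL (Motive edge size HasOrder)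
open Run7.h186.NU

/-- **Tensor products with newforms.**  `M` is the cohomology of a motive over `ℚ`, of rank `N` (only the
eigenvalues of Frobenius at almost all primes matter).  `f_e`, `e ∈ ι`, are normalised holomorphic Hecke
eigenforms of any weights `≥ 1`, levels and characters which are pairwise different, for example all
newforms.  `l = (l_1, …, l_k)` is a list of members of `ι`, for example the empty list, and
`M_e = M ⊗ f_e ⊗ f_{l_1} ⊗ ⋯ ⊗ f_{l_k}`, of weight `w_e`.  If `k ≥ 2` then the Ramanujan-Petersson
conjecture is assumed for `f_{l_2}, …, f_{l_k}`; no such assumption is made for `f_{l_1}` and for the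
`f_e`.  Let `K` be `N²` if `k ≤ 1` and `N² 4^{k-1}` if `k ≥ 1`, or the order of the pole of
`L(M_l ⊗ M_l^∨, s)` at the edge, `M_l = M ⊗ f_{l_1} ⊗ ⋯ ⊗ f_{l_k}`.
1. For every finite set `S` of pairs `x = (e, τ)`, `τ ∈ ℝ`, and every `η > 0`, for all small `ε > 0`
the value `L(M_e, w_e/2 + 1 + iτ + ε)` is not `0` for `x ∈ S`, and for the numbers
`s_x = log |L(M_e, w_e/2 + 1 + iτ + ε)| / log(1/ε)` the sum over `x ∈ S` of the squares of the positive
`s_x` is at most `K + η`, and so is the sum of the squares of the negative `s_x`.
2. For every finite set `S` of pairs `x = (e, τ)` such that the order `r_x` of `L(M_e, s)` at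
`w_e/2 + 1 + iτ` exists, the sum of the squares of the positive `r_x` is at most `K`, and so is the sum
of the squares of the negative `r_x`.
3. There are sets `F` and `G` of at most `K` forms such that `L(M_e, s)` has no pole on the edge line if
`e` is not in `F`, and no zero on the edge line if `e` is not in `G`, as far as it continues to a
neighbourhood of a point of the line.
4. If `ι` is infinite, then for every sequence `M_0, M_1, …` of motives there is an infinite subset `𝒥`
of `ι` with finite subsets `F_0, F_1, …` such that for every `j` and every list `l` of different members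
of `𝒥`, not all of them in `F_j`, all orders of `L(M_j ⊗ f_{l_1} ⊗ ⋯ ⊗ f_{l_k}, s)` on the edge line are
`0`.  (If `k ≥ 3` then the Ramanujan-Petersson conjecture is assumed for the `f_{l_i}`.) -/
theorem result (ι : Type) (f : ι → Eigenform) (hf : ∀ e e', e ≠ e' → Differ (f e) (f e')) :
    (∀ (M : Motive) (l : List ι) (K : ℕ), (∀ e ∈ l.tail, Ramanujan (f e)) → Bound M f l K →
      (∀ (S : Finset (ι × ℝ)) (B : ι × ℝ → Nat.Primes → ℂ[X]),
        (∀ x ∈ S, IsTensor M f (x.1 :: l) (B x)) → ∀ η : ℝ, 0 < η → ∀ᶠ ε : ℝ in 𝓝[>] 0,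
        (∀ x ∈ S, LFun (B x) (edge (wt M f (x.1 :: l)) x.2 + ε) ≠ 0) ∧
        ∑ x ∈ S, max (size (wt M f (x.1 :: l)) (B x) x.2 ε) 0 ^ 2 ≤ (K : ℝ) + η ∧
        ∑ x ∈ S, max (-size (wt M f (x.1 :: l)) (B x) x.2 ε) 0 ^ 2 ≤ (K : ℝ) + η) ∧
      (∀ (S : Finset (ι × ℝ)) (B : ι × ℝ → Nat.Primes → ℂ[X]) (r : ι × ℝ → ℤ),
        (∀ x ∈ S, IsTensor M f (x.1 :: l) (B x) ∧
          HasOrder (wt M f (x.1 :: l)) (B x) x.2 (r x)) →
        ∑ x ∈ S, max (r x) 0 ^ 2 ≤ (K : ℤ) ∧ ∑ x ∈ S, max (-r x) 0 ^ 2 ≤ (K : ℤ)) ∧
      (∃ F G : Finset ι, F.card ≤ K ∧ G.card ≤ K ∧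
        ∀ (e : ι) (B : Nat.Primes → ℂ[X]), IsTensor M f (e :: l) B → ∀ (τ : ℝ) (r : ℤ),
          HasOrder (wt M f (e :: l)) B τ r → (e ∉ F → 0 ≤ r) ∧ (e ∉ G → r ≤ 0))) ∧
    (Infinite ι → ∀ M : ℕ → Motive, ∃ 𝒥 : Set ι, 𝒥.Infinite ∧
      ∀ j, ∃ F : Finset ι, (∀ x ∈ F, x ∈ 𝒥) ∧
        ∀ l : List ι, l.Nodup → (∀ e ∈ l, e ∈ 𝒥) → (∃ e ∈ l, e ∉ F) →
        (l.length ≤ 2 ∨ ∀ e ∈ l, Ramanujan (f e)) →
        ∀ B : Nat.Primes → ℂ[X], IsTensor (M j) f l B →
        ∀ (τ : ℝ) (r : ℤ), HasOrder (wt (M j) f l) B τ r → r = 0) := by
  have hfam := Run7.h186.NW.fam_twf hf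
  refine ⟨fun M l K hl hK => ?_, fun hι M => ?_⟩
  · have hl' : ∀ e ∈ l.tail, Run7.h186.NW.Ram (fun e => Run7.h186.NW.twf (f e)) (fun _ => 2) e :=
      fun e he => Run7.h186.NW.ram_twf (hl e he)
    have hK' := Run7.h186.NW.bound_twf hK
    refine ⟨fun S B hB η hη => ?_, fun S B r h => ?_, ?_⟩
    · have h1 := Run7.h186.NW.mean hfam M l hl' hK' S
        (fun x hx => Run7.h186.NW.tensL_twf (hB x hx)) hη
      simp only [Run7.h186.NW.wtL_twf] at h1
      exact h1
    · exact Run7.h186.NW.order hfam M l hl' hK' S
        (fun x hx => Run7.h186.NW.tensL_twf (h x hx).1)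
        (fun x hx => by rw [Run7.h186.NW.wtL_twf]; exact (h x hx).2)
    · obtain ⟨F, G, h1, h2, h3⟩ := Run7.h186.NW.exceptional hfam M l hl' hK'
      refine ⟨F, G, h1, h2, fun e B hB τ r hr => ?_⟩
      exact h3 e B (Run7.h186.NW.tensL_twf hB) τ r (by rw [Run7.h186.NW.wtL_twf]; exact hr)
  · obtain ⟨𝒥, h1, h2⟩ := Run7.h186.NW.universal (t := fun e => Run7.h186.NW.twf (f e)) hfam
      (fun _ => 2) M
    refine ⟨𝒥, h1, fun j => ?_⟩
    obtain ⟨F, h3, h4⟩ := h2 j
    refine ⟨F, h3, fun l g1 g2 g3 g4 B hB τ r hr => ?_⟩
    exact h4 l g1 g2 g3 (g4.imp_right fun h e he => Run7.h186.NW.ram_twf (h e he)) B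
      (Run7.h186.NW.tensL_twf hB) τ r (by rw [Run7.h186.NW.wtL_twf]; exact hr)

end Run7.h186.Kept.NewformTensors
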