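import Pool.Agent.Run7.h186.Mcv

/-!
# Whitehead elements of linear groups in finite quotients: only the unipotent classes matter

Let `Γ` be a torsion-free group with a faithful representation `φ` over a field `K` of
characteristic zero, and let `U` be a set of elements such that every `g ≠ 1` outside `U` of which
some power is mapped to a unipotent matrix has, in every finitely generated subgroup `H` containing
it, a centraliser which is commutative or which has a homomorphism to `ℤ` not vanishing at `g`.  For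
example, `U` is the set of all elements with a unipotent power (the set of all unipotent elements, if
`φ(Γ)` is neat), and then there is no condition on centralisers.

Let `A` be an invertible matrix over `ℤΓ`, and let `ρ` and `ρ'` be representations of `Γ` over a
field of characteristic zero, with finite image.  If the real parts of the traces of `ρ(w)` and
`ρ'(w)` differ by a rational number for all powers `w` of elements of `U`, then `det ρ(A)` and
`det ρ'(A)` differ by a root of unity only.  With `ρ' = 1`: if the real part of the trace of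
`ρ(w)` is rational for these `w`, for example if `ρ(w)⁴ = 1` or `ρ(w)⁶ = 1`, then `det ρ(A)` is a
root of unity.
-/

set_option autoImplicit false

namespace Pool.Agent.Results.MP_8f66f0_al.UnipotentTraces

open Pool.Agent.Y72.Log Pool.Agent.Y72.Dt Run7.h186

universe u v w

theorem result {Γ : Type u} [Group Γ] (htf : ∀ g : Γ, ∀ m : ℕ, 0 < m → g ^ m = 1 → g = 1)
    {K : Type v} [Field K] [CharZero K] {N : ℕ} (φ : Γ →* GL (Fin N) K)
    (hφ : Function.Injective φ) (U : Set Γ)
    (h : ∀ H : Subgroup Γ, H.FG → ∀ g ∈ H, g ≠ 1 → g ∉ U → ∀ m : ℕ, 0 < m →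
      IsNilpotent ((φ (g ^ m)).val - 1) →
        (∀ x ∈ H, ∀ y ∈ H, x * g = g * x → y * g = g * y → x * y = y * x) ∨
        ∃ f : Γ → ℤ, (∀ x ∈ H, ∀ y ∈ H, x * g = g * x → y * g = g * y →
          f (x * y) = f x + f y) ∧ f g ≠ 0)
    {n : ℕ} (A : (Matrix (Fin n) (Fin n) (MonoidAlgebra ℤ Γ))ˣ)
    {F : Type w} [Field F] [CharZero F] {d d' : ℕ} (ρ : Γ →* GL (Fin d) F)
    (ρ' : Γ →* GL (Fin d') F)
    (hρ : ∀ H : Subgroup Γ, H.FG → (H.map ρ : Set (GL (Fin d) F)).Finite)
    (hρ' : ∀ H : Subgroup Γ, H.FG → (H.map ρ' : Set (GL (Fin d') F)).Finite)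
    (htr : ∀ u ∈ U, ∀ k : ℕ, ∃ q : ℚ,
      ((ρ (u ^ k)).val.trace + (ρ (u ^ k)⁻¹).val.trace) -
        ((ρ' (u ^ k)).val.trace + (ρ' (u ^ k)⁻¹).val.trace) = q) :
    ∃ m : ℕ, 0 < m ∧
      (Matrix.of fun x y : Fin n × Fin d =>
        (A.val x.1 y.1).coeff.sum fun g a => (a : F) * (ρ g).val x.2 y.2).det ^ m =
      (Matrix.of fun x y : Fin n × Fin d' =>
        (A.val x.1 y.1).coeff.sum fun g a => (a : F) * (ρ' g).val x.2 y.2).det ^ m := by
  obtain ⟨H, hH, hS⟩ := exists_fg A
  obtain ⟨A', hA'⟩ := exists_sub A H hS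
  haveI : Group.FG H := (Group.fg_iff_subgroup_fg H).2 hH
  have hn : Cu H {x : H | (x : Γ) ∈ U} := cu_of φ hφ htf U h H hH
  have key : ∀ {e : ℕ} (σ : Γ →* GL (Fin e) F),
      DD (((Units.coeHom _).comp σ).comp H.subtype) A'.val =
      (Matrix.of fun x y : Fin n × Fin e =>
        (A.val x.1 y.1).coeff.sum fun g a => (a : F) * (σ g).val x.2 y.2).det := by
    intro e σ
    unfold DD
    rw [← blkR_mpU, ← hA']
    congr 1
    ext1 x y
    exact lrG_apply ((Units.coeHom _).comp σ) (A.val x.1 y.1) x.2 y.2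
  have hfin : ∀ {e : ℕ} (σ : Γ →* GL (Fin e) F),
      (∀ H : Subgroup Γ, H.FG → (H.map σ : Set (GL (Fin e) F)).Finite) →
      (Set.range (((Units.coeHom (Matrix (Fin e) (Fin e) F)).comp σ).comp H.subtype)).Finite := by
    intro e σ hσ
    apply ((hσ H hH).image Units.val).subset
    rintro _ ⟨x, rfl⟩
    exact ⟨σ x.1, ⟨x.1, x.2, rfl⟩, rfl⟩
  obtain ⟨m, hm, h1⟩ := fin_image hn A' _ _ (hfin ρ hρ) (hfin ρ' hρ') (by
    intro w hw k
    obtain ⟨q, hq⟩ := htr w.1 hw k
    exact ⟨q, hq⟩)
  rw [key, key] at h1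
  exact ⟨m, hm, h1⟩

end Pool.Agent.Results.MP_8f66f0_al.UnipotentTraces
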